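import Pool.Agent.Q137.SFT.Main

set_option autoImplicit false

/-!
# Binary shifts of finite type whose minimum step is quadratic

There are shifts of finite type `X 0, X 1, ...` over the alphabet `Bool` with `s(X n) = 4 (n + 1)`
and `m(X n) ≥ s(X n) ^ 2 / 4`.
-/

namespace Pool.Agent.Results.MP_560fdc_co.QuadraticStep

open Q137.SFT

theorem result : ∃ X : ℕ → Set (ℤ → Bool),
    (∀ n, IsSFT (X n)) ∧ (∀ n, s (X n) = 4 * (n + 1)) ∧
    Filter.Tendsto (fun n => s (X n)) Filter.atTop Filter.atTop ∧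
    ∀ n, (1 / 4 : ℝ) * (s (X n) : ℝ) ^ 2 ≤ (m (X n) : ℝ) := by
  refine ⟨fun n => (G (n + 1)).shift, fun n => ⟨_, isStep (by omega)⟩,
    fun n => s_eq (by omega), ?_, fun n => ?_⟩
  · have h : (fun n : ℕ => s (G (n + 1)).shift) = fun n => 4 * (n + 1) := by
      funext n
      exact s_eq (by omega)
    rw [h]
    refine Filter.tendsto_atTop_mono (fun n => ?_) Filter.tendsto_id
    simp only [id]
    omega
  · have h1 := m_ge (k := n + 1) (by omega)
    have h2 : (s (G (n + 1)).shift : ℝ) = 4 * (n + 1) := by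
      rw [s_eq (k := n + 1) (by omega)]
      push_cast
      ring
    have h3 : (4 * (n + 1) * (n + 1) : ℝ) ≤ (m (G (n + 1)).shift : ℝ) := by
      exact_mod_cast h1
    rw [h2]
    linarith

end Pool.Agent.Results.MP_560fdc_co.QuadraticStep
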